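import Pool.Agent.H101.HB.Stm

/-!
# Project HB-uniform (helper101): the Abelian argument `S_AB`, measurability and size of `v`
-/

set_option autoImplicit false

open Complex MeasureTheory Filter Topology Set

namespace Pool.Agent.H484.HB

open Pool.Agent.Y763.HB
open Pool.Agent.H101.HB

/-- the truncated sum -/
noncomputable def MK (K : ℕ) (p : ℝ × ℝ) : ℝ :=
  ∑ n ∈ Finset.range K, ({q : ℝ × ℝ | |(n : ℝ) - q.1| < q.2 / 2}).indicator
    (fun _ => ((ArithmeticFunction.moebius n : ℤ) : ℝ)) p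

theorem MK_meas (K : ℕ) : Measurable (MK K) := by
  unfold MK
  refine Finset.measurable_sum _ (fun n _ => ?_)
  refine measurable_const.indicator ?_
  exact measurableSet_lt (by fun_prop) (by fun_prop)

theorem M_eq_MK (x H : ℝ) (K : ℕ) (hK : ⌈x + H⌉₊ + 1 ≤ K) : M x H = MK K (x, H) := by
  unfold M MK
  rw [Finset.sum_filter]
  have h1 : ∑ n ∈ Finset.range K, ({q : ℝ × ℝ | |(n : ℝ) - q.1| < q.2 / 2}).indicator
      (fun _ => ((ArithmeticFunction.moebius n : ℤ) : ℝ)) (x, H) =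
      ∑ n ∈ Finset.range K, (if |(n : ℝ) - x| < H / 2 then
        ((ArithmeticFunction.moebius n : ℤ) : ℝ) else 0) := by
    refine Finset.sum_congr rfl (fun n _ => ?_)
    by_cases h : |(n : ℝ) - x| < H / 2
    · rw [if_pos h, Set.indicator_of_mem]
      exact h
    · rw [if_neg h, Set.indicator_of_notMem]
      exact h
  rw [h1]
  refine Finset.sum_subset (Finset.range_subset_range.2 hK) ?_
  intro n _ hn
  rw [if_neg]
  intro h
  apply hn
  rw [Finset.mem_range]
  have h2 := (abs_lt.1 h).2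
  have h3 : 0 ≤ H := by
    have := abs_nonneg ((n : ℝ) - x)
    linarith
  have h4 : (n : ℝ) ≤ x + H := by linarith
  have h5 : (n : ℝ) ≤ (⌈x + H⌉₊ : ℝ) := h4.trans (Nat.le_ceil _)
  have h6 : n ≤ ⌈x + H⌉₊ := by exact_mod_cast h5
  omega

theorem M_meas : Measurable (fun p : ℝ × ℝ => M p.1 p.2) := by
  refine measurable_of_tendsto_metrizable (f := MK) MK_meas ?_
  rw [tendsto_pi_nhds]
  intro p
  refine tendsto_const_nhds.congr' ?_
  filter_upwards [eventually_ge_atTop (⌈p.1 + p.2⌉₊ + 1)] with K hK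
  exact M_eq_MK p.1 p.2 K hK

theorem M_abs (x H : ℝ) (h : 0 ≤ x + H) : |M x H| ≤ x + H + 2 := by
  unfold M
  refine (Finset.abs_sum_le_sum_abs _ _).trans ?_
  have h1 : ∀ n ∈ (Finset.range (⌈x + H⌉₊ + 1)).filter (fun n : ℕ => |(n : ℝ) - x| < H / 2),
      |((ArithmeticFunction.moebius n : ℤ) : ℝ)| ≤ 1 := by
    intro n _
    have := ArithmeticFunction.abs_moebius_le_one (n := n)
    exact_mod_cast this
  refine (Finset.sum_le_card_nsmul _ _ 1 h1).trans ?_
  rw [nsmul_eq_mul, mul_one]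
  have h2 : ((Finset.range (⌈x + H⌉₊ + 1)).filter (fun n : ℕ => |(n : ℝ) - x| < H / 2)).card ≤
      ⌈x + H⌉₊ + 1 := (Finset.card_filter_le _ _).trans (by rw [Finset.card_range])
  have h3 : (⌈x + H⌉₊ : ℝ) < x + H + 1 := Nat.ceil_lt_add_one h
  have h4 : ((((Finset.range (⌈x + H⌉₊ + 1)).filter
      (fun n : ℕ => |(n : ℝ) - x| < H / 2)).card : ℕ) : ℝ) ≤ (⌈x + H⌉₊ : ℝ) + 1 := by
    exact_mod_cast h2
  linarith

/-- the integral in the definition of `V` as an integral over the line -/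
noncomputable def VI (T X : ℝ) : ℝ := ∫ x : ℝ, ({q : ℝ × ℝ | q.1 < q.2 ∧ q.2 ≤ 2 * q.1}).indicator
    (fun q => M q.2 (q.1 / T) ^ 2) (X, x)

theorem VI_meas (T : ℝ) : Measurable (VI T) := by
  have h1 : StronglyMeasurable (Function.uncurry (fun (X x : ℝ) =>
      ({q : ℝ × ℝ | q.1 < q.2 ∧ q.2 ≤ 2 * q.1}).indicator
        (fun q => M q.2 (q.1 / T) ^ 2) (X, x))) := by
    refine Measurable.stronglyMeasurable ?_
    have h2 : Measurable (fun q : ℝ × ℝ => M q.2 (q.1 / T) ^ 2) := by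
      have h3 : Measurable (fun q : ℝ × ℝ => ((q.2, q.1 / T) : ℝ × ℝ)) := by fun_prop
      exact (M_meas.comp h3).pow_const 2
    have h4 : MeasurableSet {q : ℝ × ℝ | q.1 < q.2 ∧ q.2 ≤ 2 * q.1} :=
      MeasurableSet.inter (measurableSet_lt measurable_fst measurable_snd)
        (measurableSet_le measurable_snd (measurable_fst.const_mul 2))
    exact h2.indicator h4
  exact (h1.integral_prod_right (ν := volume)).measurable

theorem v_eq (T X : ℝ) (hX : 0 < X) : v T X = (1 / X * VI T X) / (X / T) := by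
  unfold v V VI
  rw [intervalIntegral.integral_of_le (by linarith)]
  rw [← integral_indicator measurableSet_Ioc]
  congr 2

theorem v_aem (T : ℝ) (S : Set ℝ) (hS : MeasurableSet S) (hS' : ∀ X ∈ S, 0 < X) :
    AEMeasurable (v T) (volume.restrict S) := by
  have h1 : Measurable (fun X => (1 / X * VI T X) / (X / T)) := by
    have := VI_meas T
    fun_prop
  refine h1.aemeasurable.congr ?_
  rw [Filter.EventuallyEq, ae_restrict_iff' hS]
  exact Eventually.of_forall (fun X hX => (v_eq T X (hS' X hX)).symm)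

theorem v_nonneg (T X : ℝ) (hT : 0 < T) (hX : 0 < X) : 0 ≤ v T X := by
  unfold v V
  have h1 : 0 ≤ ∫ x in X..2 * X, M x (X / T) ^ 2 :=
    intervalIntegral.integral_nonneg (by linarith) (fun x _ => sq_nonneg _)
  positivity

theorem v_le (T X : ℝ) (hT : 0 < T) (hX : T ≤ X) : v T X ≤ (3 * X / min T 1 + 2) ^ 2 := by
  have hXp : 0 < X := lt_of_lt_of_le hT hX
  unfold v V
  have hm : 0 < min T 1 := lt_min hT one_pos
  have hXT : X / T ≤ X / min T 1 := div_le_div_of_nonneg_left hXp.le hm (min_le_left _ _)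
  have hX1 : X ≤ X / min T 1 := by
    rw [le_div_iff₀ hm]
    have := min_le_right T 1
    nlinarith
  have hb : ∀ x ∈ uIoc X (2 * X), ‖M x (X / T) ^ 2‖ ≤ (3 * X / min T 1 + 2) ^ 2 := by
    intro x hx
    rw [uIoc_of_le (by linarith)] at hx
    have hXT0 : 0 < X / T := by positivity
    have h1 := M_abs x (X / T) (by linarith [hx.1])
    rw [Real.norm_eq_abs, abs_pow, sq_le_sq]
    rw [abs_abs, abs_of_nonneg (by positivity : 0 ≤ 3 * X / min T 1 + 2)]
    have h2 : x ≤ 2 * (X / min T 1) := by linarith [hx.2]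
    have h3 : 3 * X / min T 1 = 3 * (X / min T 1) := by ring
    rw [h3]
    linarith
  have h2 := intervalIntegral.norm_integral_le_of_norm_le_const hb
  rw [show |2 * X - X| = X by rw [show 2 * X - X = X by ring, abs_of_pos hXp]] at h2
  rw [Real.norm_eq_abs] at h2
  have h3 := (le_abs_self _).trans h2
  have h4 : 1 / X * ∫ x in X..2 * X, M x (X / T) ^ 2 ≤ (3 * X / min T 1 + 2) ^ 2 := by
    rw [one_div, inv_mul_le_iff₀ hXp]
    linarith
  have h5 : 1 ≤ X / T := by rw [le_div_iff₀ hT]; linarith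
  rw [div_le_iff₀ (by linarith)]
  have h6 : 0 ≤ (3 * X / min T 1 + 2) ^ 2 := sq_nonneg _
  nlinarith

theorem v_int (T Y : ℝ) (hT : 0 < T) : IntegrableOn (fun X => v T X / X) (Ioc T Y) := by
  have h1 : AEMeasurable (fun X => v T X / X) (volume.restrict (Ioc T Y)) := by
    have := v_aem T (Ioc T Y) measurableSet_Ioc (fun X hX => hT.trans hX.1)
    exact this.div aemeasurable_id
  refine Integrable.of_bound h1.aestronglyMeasurable ((3 * |Y| / min T 1 + 2) ^ 2 / T) ?_
  rw [ae_restrict_iff' measurableSet_Ioc]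
  refine Eventually.of_forall (fun X hX => ?_)
  have hXp : 0 < X := hT.trans hX.1
  have hm : 0 < min T 1 := lt_min hT one_pos
  rw [Real.norm_eq_abs, abs_of_nonneg (div_nonneg (v_nonneg T X hT hXp) hXp.le)]
  have h2 := v_le T X hT hX.1.le
  have h3 : X ≤ |Y| := hX.2.trans (le_abs_self _)
  have h4 : (3 * X / min T 1 + 2) ^ 2 ≤ (3 * |Y| / min T 1 + 2) ^ 2 := by gcongr
  have h5 : 0 ≤ v T X := v_nonneg T X hT hXp
  calc v T X / X ≤ (3 * |Y| / min T 1 + 2) ^ 2 / X := by gcongr; linarith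
    _ ≤ (3 * |Y| / min T 1 + 2) ^ 2 / T := by
        apply div_le_div_of_nonneg_left (sq_nonneg _) hT hX.1.le

/-- `∫_X^∞ 2δ Y^(-2δ-1) dY = X^(-2δ)` -/
theorem tail_eq (δ X : ℝ) (hδ : 0 < δ) (hX : 0 < X) :
    ∫⁻ Y in Ioi X, ENNReal.ofReal (2 * δ * Y ^ (-(2 * δ) - 1)) =
      ENNReal.ofReal (X ^ (-(2 * δ))) := by
  have h1 : -(2 * δ) - 1 < -1 := by linarith
  have h2 := integrableOn_Ioi_rpow_of_lt h1 hX
  have h3 := integral_Ioi_rpow_of_lt h1 hX
  rw [← ofReal_integral_eq_lintegral_ofReal (h2.const_mul _)]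
  · rw [integral_const_mul, h3]
    congr 1
    have h4 : -(2 * δ) - 1 + 1 = -(2 * δ) := by ring
    rw [h4]
    field_simp
  · rw [Filter.EventuallyLE, ae_restrict_iff' measurableSet_Ioi]
    refine Eventually.of_forall (fun Y hY => ?_)
    have hY' : 0 < Y := hX.trans hY
    show 0 ≤ 2 * δ * Y ^ (-(2 * δ) - 1)
    positivity

/-- the integral of the majorant -/
theorem maj_eq (δ C c : ℝ) (hδ : 0 < δ) (hC : 0 ≤ C) (hc : 0 ≤ c) :
    ∫⁻ Y in Ioi (1 : ℝ), ENNReal.ofReal (2 * δ * Y ^ (-(2 * δ) - 1) * (C + c * Real.log Y)) =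
      ENNReal.ofReal (C + c / (2 * δ)) := by
  have hder : ∀ Y ∈ Ioi (1 : ℝ), HasDerivAt (fun Y : ℝ =>
      -(Y ^ (-(2 * δ)) * (C + c * Real.log Y + c / (2 * δ))))
      (2 * δ * Y ^ (-(2 * δ) - 1) * (C + c * Real.log Y)) Y := by
    intro Y hY
    have hY0 : 0 < Y := lt_trans one_pos hY
    have h1 : HasDerivAt (fun Y : ℝ => Y ^ (-(2 * δ))) (-(2 * δ) * Y ^ (-(2 * δ) - 1)) Y := by
      have := Real.hasDerivAt_rpow_const (x := Y) (p := -(2 * δ)) (Or.inl hY0.ne')
      exact this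
    have h2 : HasDerivAt (fun Y : ℝ => C + c * Real.log Y + c / (2 * δ)) (c * Y⁻¹) Y := by
      have := (((Real.hasDerivAt_log hY0.ne').const_mul c).const_add C).add_const (c / (2 * δ))
      exact this
    refine (h1.mul h2).neg.congr_deriv ?_
    have h3 : Y ^ (-(2 * δ)) = Y ^ (-(2 * δ) - 1) * Y := by
      rw [Real.rpow_sub hY0, Real.rpow_one]
      field_simp
    rw [h3]
    field_simp
    ring
  have hcont : ContinuousWithinAt (fun Y : ℝ =>
      -(Y ^ (-(2 * δ)) * (C + c * Real.log Y + c / (2 * δ)))) (Ici 1) 1 := by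
    refine ContinuousAt.continuousWithinAt ?_
    refine ContinuousAt.neg ?_
    refine ContinuousAt.mul ?_ ?_
    · exact Real.continuousAt_rpow_const _ _ (Or.inl one_ne_zero)
    · have := Real.continuousAt_log (one_ne_zero : (1 : ℝ) ≠ 0)
      fun_prop
  have hnn : ∀ Y ∈ Ioi (1 : ℝ), 0 ≤ 2 * δ * Y ^ (-(2 * δ) - 1) * (C + c * Real.log Y) := by
    intro Y hY
    have hY1 : (1 : ℝ) < Y := hY
    have hY0 : 0 < Y := lt_trans one_pos hY1
    have := Real.log_nonneg hY1.le
    positivity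
  have hlim : Tendsto (fun Y : ℝ => -(Y ^ (-(2 * δ)) * (C + c * Real.log Y + c / (2 * δ))))
      atTop (𝓝 0) := by
    have h1 : Tendsto (fun Y : ℝ => Y ^ (-(2 * δ))) atTop (𝓝 0) :=
      tendsto_rpow_neg_atTop (by linarith)
    have h2 : Tendsto (fun Y : ℝ => Real.log Y / Y ^ (2 * δ)) atTop (𝓝 0) :=
      (isLittleO_log_rpow_atTop (by linarith : 0 < 2 * δ)).tendsto_div_nhds_zero
    have h3 : Tendsto (fun Y : ℝ => -((C + c / (2 * δ)) * Y ^ (-(2 * δ)) +
        c * (Real.log Y / Y ^ (2 * δ)))) atTop (𝓝 (-((C + c / (2 * δ)) * 0 + c * 0))) :=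
      ((h1.const_mul _).add (h2.const_mul _)).neg
    rw [mul_zero, mul_zero, add_zero, neg_zero] at h3
    refine h3.congr' ?_
    filter_upwards [eventually_gt_atTop 0] with Y hY
    rw [Real.rpow_neg hY.le]
    field_simp
    ring
  have hint := integrableOn_Ioi_deriv_of_nonneg hcont hder hnn hlim
  have hval := integral_Ioi_of_hasDerivAt_of_nonneg hcont hder hnn hlim
  rw [← ofReal_integral_eq_lintegral_ofReal hint]
  · rw [hval]
    congr 1
    simp
  · rw [Filter.EventuallyLE, ae_restrict_iff' measurableSet_Ioi]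
    exact Eventually.of_forall hnn

theorem s_AB : S_AB := by
  intro T c κ hT hc hcκ hev
  by_contra hcon
  rw [Filter.not_frequently] at hcon
  obtain ⟨Y₁, hY₁⟩ := Filter.eventually_atTop.1 hcon
  set Y₀ := max Y₁ T with hY₀
  have hT0 : 0 < T := by linarith
  set Φ : ℝ → ℝ := fun Y => ∫ X in T..Y, v T X / X with hΦ
  have hΦeq : ∀ Y, T ≤ Y → Φ Y = ∫ X in Ioc T Y, v T X / X := fun Y hY => by
    simp only [hΦ]; rw [intervalIntegral.integral_of_le hY]
  have hge : ∀ X ∈ Ioi T, 0 ≤ v T X / X := fun X hX => by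
    have hX0 : 0 < X := hT0.trans hX
    exact div_nonneg (v_nonneg T X hT0 hX0) hX0.le
  have hΦ0 : ∀ Y, T ≤ Y → 0 ≤ Φ Y := by
    intro Y hY
    rw [hΦeq Y hY]
    exact setIntegral_nonneg measurableSet_Ioc (fun X hX => hge X hX.1)
  have hΦm : ∀ Y, T ≤ Y → Y ≤ Y₀ → Φ Y ≤ Φ Y₀ := by
    intro Y hY hY'
    rw [hΦeq Y hY, hΦeq Y₀ (le_max_right _ _)]
    refine setIntegral_mono_set (v_int T Y₀ hT0) ?_ ?_
    · rw [Filter.EventuallyLE, ae_restrict_iff' measurableSet_Ioc]
      exact Eventually.of_forall (fun X hX => hge X hX.1)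
    · exact (Ioc_subset_Ioc_right hY').eventuallyLE
  have hΦb : ∀ Y, T ≤ Y → Φ Y ≤ Φ Y₀ + c * Real.log Y := by
    intro Y hY
    have hl : 0 ≤ c * Real.log Y := mul_nonneg hc (Real.log_nonneg (hT.trans hY))
    rcases le_total Y Y₀ with h | h
    · linarith [hΦm Y hY h]
    · have h1 := hY₁ Y ((le_max_left _ _).trans h)
      have h2 : Φ Y < c * Real.log Y := not_le.1 h1
      linarith [hΦ0 Y₀ (le_max_right _ _)]
  set C := Φ Y₀ with hC
  have hC0 : 0 ≤ C := hΦ0 Y₀ (le_max_right _ _)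
  -- Tonelli
  have hTon : ∀ δ : ℝ, 0 < δ →
      ∫⁻ X in Ioi T, ENNReal.ofReal (v T X * X ^ (-(2 * δ) - 1)) ≤
        ENNReal.ofReal (C + c / (2 * δ)) := by
    intro δ hδ
    set g : ℝ → ENNReal := fun X => ENNReal.ofReal (v T X / X) with hg
    set h : ℝ → ENNReal := fun Y => ENNReal.ofReal (2 * δ * Y ^ (-(2 * δ) - 1)) with hh
    have hgm : AEMeasurable g (volume.restrict (Ioi T)) := by
      have := v_aem T (Ioi T) measurableSet_Ioi (fun X hX => hT0.trans hX)
      exact (this.div aemeasurable_id).ennreal_ofReal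
    have hhm : Measurable h := by
      simp only [hh]
      fun_prop
    have e1 : ∫⁻ X in Ioi T, ENNReal.ofReal (v T X * X ^ (-(2 * δ) - 1)) =
        ∫⁻ X in Ioi T, ∫⁻ Y in Ioi T, (Ioi X).indicator (fun Y => g X * h Y) Y := by
      refine setLIntegral_congr_fun measurableSet_Ioi (fun X hX => ?_)
      have hX' : T < X := hX
      have hX0 : 0 < X := hT0.trans hX'
      show ENNReal.ofReal (v T X * X ^ (-(2 * δ) - 1)) =
        ∫⁻ Y in Ioi T, (Ioi X).indicator (fun Y => g X * h Y) Y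
      rw [lintegral_indicator measurableSet_Ioi, Measure.restrict_restrict measurableSet_Ioi,
        show Ioi X ∩ Ioi T = Ioi X from inter_eq_left.2 (Ioi_subset_Ioi hX'.le),
        lintegral_const_mul _ hhm, tail_eq δ X hδ hX0]
      simp only [hg]
      rw [← ENNReal.ofReal_mul (hge X hX')]
      congr 1
      rw [Real.rpow_sub hX0, Real.rpow_one]
      ring
    have e2 : ∫⁻ X in Ioi T, ∫⁻ Y in Ioi T, (Ioi X).indicator (fun Y => g X * h Y) Y =
        ∫⁻ Y in Ioi T, ∫⁻ X in Ioi T, (Ioi X).indicator (fun Y => g X * h Y) Y := by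
      refine lintegral_lintegral_swap ?_
      have e3 : (Function.uncurry fun X Y => (Ioi X).indicator (fun Y => g X * h Y) Y) =
          ({p : ℝ × ℝ | p.1 < p.2}).indicator (fun p => g p.1 * h p.2) := by
        funext p
        obtain ⟨X, Y⟩ := p
        show (Ioi X).indicator (fun Y => g X * h Y) Y = _
        by_cases hXY : X < Y
        · rw [Set.indicator_of_mem (show Y ∈ Ioi X from hXY),
            Set.indicator_of_mem (show (X, Y) ∈ {p : ℝ × ℝ | p.1 < p.2} from hXY)]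
        · rw [Set.indicator_of_notMem (show Y ∉ Ioi X from hXY),
            Set.indicator_of_notMem (show (X, Y) ∉ {p : ℝ × ℝ | p.1 < p.2} from hXY)]
      rw [e3]
      refine AEMeasurable.indicator ?_ (measurableSet_lt measurable_fst measurable_snd)
      have q1 : AEMeasurable (fun p : ℝ × ℝ => g p.1)
          ((volume.restrict (Ioi T)).prod (volume.restrict (Ioi T))) := hgm.comp_fst
      have q2 : AEMeasurable (fun p : ℝ × ℝ => h p.2)
          ((volume.restrict (Ioi T)).prod (volume.restrict (Ioi T))) :=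
        (hhm.comp measurable_snd).aemeasurable
      exact q1.mul q2
    have e4 : ∀ Y ∈ Ioi T, ∫⁻ X in Ioi T, (Ioi X).indicator (fun Y => g X * h Y) Y ≤
        ENNReal.ofReal (2 * δ * Y ^ (-(2 * δ) - 1) * (C + c * Real.log Y)) := by
      intro Y hY
      have hY' : T < Y := hY
      have hY0 : 0 < Y := hT0.trans hY'
      have e5 : ∀ X, (Ioi X).indicator (fun Y => g X * h Y) Y =
          (Iio Y).indicator (fun X => g X * h Y) X := by
        intro X
        by_cases hXY : X < Y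
        · rw [Set.indicator_of_mem (show Y ∈ Ioi X from hXY),
            Set.indicator_of_mem (show X ∈ Iio Y from hXY)]
        · rw [Set.indicator_of_notMem (show Y ∉ Ioi X from hXY),
            Set.indicator_of_notMem (show X ∉ Iio Y from hXY)]
      simp only [e5]
      rw [lintegral_indicator measurableSet_Iio, Measure.restrict_restrict measurableSet_Iio]
      have e6 : ∫⁻ X in Iio Y ∩ Ioi T, g X * h Y ≤ ∫⁻ X in Ioc T Y, g X * h Y := by
        refine lintegral_mono_set ?_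
        intro X hX
        exact ⟨hX.2, le_of_lt hX.1⟩
      refine e6.trans ?_
      have hgm' : AEMeasurable g (volume.restrict (Ioc T Y)) :=
        hgm.mono_measure (Measure.restrict_mono Ioc_subset_Ioi_self le_rfl)
      rw [lintegral_mul_const'' _ hgm']
      have e7 : ∫⁻ X in Ioc T Y, g X = ENNReal.ofReal (Φ Y) := by
        rw [hΦeq Y hY'.le]
        rw [ofReal_integral_eq_lintegral_ofReal (v_int T Y hT0)]
        rw [Filter.EventuallyLE, ae_restrict_iff' measurableSet_Ioc]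
        exact Eventually.of_forall (fun X hX => hge X hX.1)
      rw [e7, mul_comm]
      simp only [hh]
      rw [← ENNReal.ofReal_mul (by positivity)]
      refine ENNReal.ofReal_le_ofReal ?_
      exact mul_le_mul_of_nonneg_left (hΦb Y hY'.le) (by positivity)
    rw [e1, e2]
    calc ∫⁻ Y in Ioi T, ∫⁻ X in Ioi T, (Ioi X).indicator (fun Y => g X * h Y) Y
        ≤ ∫⁻ Y in Ioi T, ENNReal.ofReal (2 * δ * Y ^ (-(2 * δ) - 1) * (C + c * Real.log Y)) := by
          refine setLIntegral_mono' measurableSet_Ioi e4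
      _ ≤ ∫⁻ Y in Ioi (1 : ℝ), ENNReal.ofReal (2 * δ * Y ^ (-(2 * δ) - 1) *
          (C + c * Real.log Y)) := lintegral_mono_set (Ioi_subset_Ioi hT)
      _ = ENNReal.ofReal (C + c / (2 * δ)) := maj_eq δ C c hδ hC0 hc
  -- conclusion
  have hlim : ∀ᶠ δ : ℝ in 𝓝[>] 0, 2 * δ * C < κ - c := by
    have h1 : Tendsto (fun δ : ℝ => 2 * δ * C) (𝓝[>] 0) (𝓝 (2 * 0 * C)) := by
      refine Tendsto.mono_left ?_ nhdsWithin_le_nhds
      have : Continuous (fun δ : ℝ => 2 * δ * C) := by fun_prop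
      exact this.tendsto 0
    rw [mul_zero, zero_mul] at h1
    exact h1.eventually (gt_mem_nhds (by linarith))
  obtain ⟨δ, ⟨h1, h2⟩, h3⟩ := ((hev.and hlim).and self_mem_nhdsWithin).exists
  have hδ : 0 < δ := h3
  have h4 := h1.trans (mul_le_mul' (le_refl (ENNReal.ofReal (2 * δ))) (hTon δ hδ))
  rw [← ENNReal.ofReal_mul (by linarith)] at h4
  have h5 : 2 * δ * (C + c / (2 * δ)) = 2 * δ * C + c := by field_simp
  rw [h5] at h4
  have h6 := (ENNReal.ofReal_le_ofReal_iff (by positivity)).1 h4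
  linarith

end Pool.Agent.H484.HB
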