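import Pool.Agent.H101.HB.Stm

/-!
# Project HB-uniform (helper101): the kernel on the line `Re s = 1/2 + δ`, `S_KS`
-/

set_option autoImplicit false

open MeasureTheory Filter Topology Set

namespace Pool.Agent.H484.HBK

open Pool.Agent.Y763.HB
open Pool.Agent.H101.HB

theorem cpow_re_im (x δ t : ℝ) (hx : 0 < x) :
    (((x : ℝ) : ℂ) ^ (ln δ t)).re = x ^ (1 / 2 + δ) * Real.cos (t * Real.log x) ∧
    (((x : ℝ) : ℂ) ^ (ln δ t)).im = x ^ (1 / 2 + δ) * Real.sin (t * Real.log x) := by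
  have hx' : ((x : ℝ) : ℂ) ≠ 0 := by exact_mod_cast hx.ne'
  rw [Complex.cpow_def_of_ne_zero hx', ← Complex.ofReal_log hx.le]
  have hre : ((Real.log x : ℂ) * ln δ t).re = Real.log x * (1 / 2 + δ) := by
    simp [ln]
  have him : ((Real.log x : ℂ) * ln δ t).im = t * Real.log x := by
    simp [ln, mul_comm]
  rw [Complex.exp_re, Complex.exp_im, hre, him, Real.rpow_def_of_pos hx]
  exact ⟨rfl, rfl⟩

theorem norm_sq_eq (x y δ t : ℝ) (hx : 0 < x) (hy : 0 < y) :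
    ‖((x : ℝ) : ℂ) ^ (ln δ t) - ((y : ℝ) : ℂ) ^ (ln δ t)‖ ^ 2 =
      (x ^ (1 / 2 + δ) - y ^ (1 / 2 + δ)) ^ 2 +
        (y * x) ^ (1 / 2 + δ) * (2 - 2 * Real.cos (t * Real.log (x / y))) := by
  obtain ⟨h1, h2⟩ := cpow_re_im x δ t hx
  obtain ⟨h3, h4⟩ := cpow_re_im y δ t hy
  have hcs : Real.cos (t * (Real.log x - Real.log y)) =
      Real.cos (t * Real.log x) * Real.cos (t * Real.log y) +
        Real.sin (t * Real.log x) * Real.sin (t * Real.log y) := by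
    rw [mul_sub, Real.cos_sub]
  rw [← Complex.normSq_eq_norm_sq, Complex.normSq_apply, Complex.sub_re, Complex.sub_im, h1, h2,
    h3, h4, Real.log_div hx.ne' hy.ne', hcs, Real.mul_rpow hy.le hx.le]
  have e1 := Real.sin_sq_add_cos_sq (t * Real.log x)
  have e2 := Real.sin_sq_add_cos_sq (t * Real.log y)
  generalize x ^ (1 / 2 + δ) = A at *
  generalize y ^ (1 / 2 + δ) = B at *
  linear_combination (A ^ 2) * e1 + (B ^ 2) * e2

theorem sinh_bd (x y σ : ℝ) (hy : 0 < y) (hxy : y ≤ x) (hσ : 0 ≤ σ) :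
    (y * x) ^ σ * (σ * Real.log (x / y)) ^ 2 ≤ (x ^ σ - y ^ σ) ^ 2 := by
  have hx : 0 < x := lt_of_lt_of_le hy hxy
  set a := σ * Real.log x with ha
  set b := σ * Real.log y with hb
  have h1 : x ^ σ = Real.exp a := by rw [Real.rpow_def_of_pos hx, ha, mul_comm]
  have h2 : y ^ σ = Real.exp b := by rw [Real.rpow_def_of_pos hy, hb, mul_comm]
  have h3 : σ * Real.log (x / y) = a - b := by
    rw [Real.log_div hx.ne' hy.ne', ha, hb]; ring
  have h4 : 0 ≤ a - b := by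
    rw [← h3]
    refine mul_nonneg hσ (Real.log_nonneg ?_)
    rw [one_le_div hy]; exact hxy
  rw [Real.mul_rpow hy.le hx.le, h1, h2, h3]
  have h5 : (a - b) / 2 ≤ Real.sinh ((a - b) / 2) := Real.self_le_sinh_iff.2 (by linarith)
  have h6 : Real.exp a - Real.exp b = Real.exp ((a + b) / 2) * (2 * Real.sinh ((a - b) / 2)) := by
    rw [Real.sinh_eq]
    have e1 : Real.exp a = Real.exp ((a + b) / 2) * Real.exp ((a - b) / 2) := by
      rw [← Real.exp_add]; congr 1; ring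
    have e2 : Real.exp b = Real.exp ((a + b) / 2) * Real.exp (-((a - b) / 2)) := by
      rw [← Real.exp_add]; congr 1; ring
    rw [e1, e2]; ring
  have h7 : Real.exp b * Real.exp a = Real.exp ((a + b) / 2) ^ 2 := by
    rw [← Real.exp_add, ← Real.exp_nat_mul]
    congr 1; push_cast; ring
  rw [h6, h7, mul_pow (Real.exp ((a + b) / 2))]
  refine mul_le_mul_of_nonneg_left ?_ (sq_nonneg _)
  exact pow_le_pow_left₀ h4 (by linarith) 2

theorem log_bd (x y : ℝ) (hy : 0 < y) (hxy : y ≤ x) :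
    2 * (x - y) / (x + y) ≤ Real.log (x / y) := by
  have h1 := Real.le_log_one_add_of_nonneg (x := (x - y) / y) (div_nonneg (by linarith) hy.le)
  have h2 : 1 + (x - y) / y = x / y := by field_simp; ring
  rw [h2] at h1
  refine le_trans (le_of_eq ?_) h1
  have h3 : x + y ≠ 0 := by linarith
  have h4 : (x - y) / y + 2 ≠ 0 := by
    have : (x - y) / y + 2 = (x + y) / y := by field_simp; ring
    rw [this]
    positivity
  rw [div_eq_div_iff h3 h4]
  field_simp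
  ring

/-- the pointwise bound -/
theorem ptw (u θ δ t : ℝ) (hu : 1 ≤ u) (hθ : 0 < θ) (hθ1 : θ ≤ 1 / 2) (hδ : 0 < δ) (hδ1 : δ ≤ 1 / 2) :
    (1 - θ ^ 2) * (√((u - θ) * (u + θ)) *
        (2 - 2 * Real.cos (t * Real.log ((u + θ) / (u - θ)))) +
        ((1 / 2 + δ) ^ 2 * (1 - θ ^ 2) * (4 * θ ^ 2)) * (1 / u)) ≤
      ‖((u + θ : ℝ) : ℂ) ^ (ln δ t) - ((u - θ : ℝ) : ℂ) ^ (ln δ t)‖ ^ 2 := by
  have hx : 0 < u + θ := by linarith
  have hy : 0 < u - θ := by linarith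
  rw [norm_sq_eq (u + θ) (u - θ) δ t hx hy]
  have hw : (u - θ) * (u + θ) = u ^ 2 - θ ^ 2 := by ring
  have hθ2 : θ ^ 2 ≤ 1 / 4 := by nlinarith
  have hw1 : 1 - θ ^ 2 ≤ (u - θ) * (u + θ) := by rw [hw]; nlinarith
  have hwp : 0 < (u - θ) * (u + θ) := mul_pos hy hx
  set w := (u - θ) * (u + θ) with hwd
  set σ := 1 / 2 + δ with hσ
  have hσp : 0 < σ := by rw [hσ]; linarith
  have h1θ : 0 < 1 - θ ^ 2 := by linarith
  have hwσ : √w * (1 - θ ^ 2) ≤ w ^ σ := by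
    rw [hσ, Real.rpow_add hwp, ← Real.sqrt_eq_rpow]
    refine mul_le_mul_of_nonneg_left ?_ (Real.sqrt_nonneg _)
    calc 1 - θ ^ 2 = (1 - θ ^ 2) ^ (1 : ℝ) := (Real.rpow_one _).symm
      _ ≤ (1 - θ ^ 2) ^ δ :=
          Real.rpow_le_rpow_of_exponent_ge h1θ (by nlinarith [sq_nonneg θ]) (by linarith)
      _ ≤ w ^ δ := Real.rpow_le_rpow h1θ.le hw1 hδ.le
  have hsinh := sinh_bd (u + θ) (u - θ) σ hy (by linarith) hσp.le
  rw [← hwd] at hsinh
  set L := Real.log ((u + θ) / (u - θ)) with hL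
  have hL1 : 2 * θ / u ≤ L := by
    have := log_bd (u + θ) (u - θ) hy (by linarith)
    rw [← hL] at this
    refine le_trans (le_of_eq ?_) this
    have hu0 : u ≠ 0 := by linarith
    field_simp
    ring
  have hL0 : 0 ≤ 2 * θ / u := by positivity
  have hcos : 0 ≤ 2 - 2 * Real.cos (t * L) := by linarith [Real.cos_le_one (t * L)]
  have hsw : u * (1 - θ ^ 2) ≤ √w := by
    refine Real.le_sqrt_of_sq_le ?_
    rw [hw]
    have : (1 - θ ^ 2) ^ 2 ≤ 1 - θ ^ 2 := by nlinarith [sq_nonneg θ]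
    nlinarith [mul_le_mul_of_nonneg_left this (sq_nonneg u), sq_nonneg θ, sq_nonneg u]
  have h2 : (1 - θ ^ 2) * (√w * (2 - 2 * Real.cos (t * L))) ≤ w ^ σ * (2 - 2 * Real.cos (t * L)) := by
    have := mul_le_mul_of_nonneg_right hwσ hcos
    linarith
  have h3 : (1 - θ ^ 2) * ((σ ^ 2 * (1 - θ ^ 2) * (4 * θ ^ 2)) * (1 / u)) ≤ w ^ σ * (σ * L) ^ 2 := by
    have e1 : (2 * θ / u) ^ 2 ≤ L ^ 2 := pow_le_pow_left₀ hL0 hL1 2
    have e2 : u * (1 - θ ^ 2) * (1 - θ ^ 2) ≤ w ^ σ :=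
      (mul_le_mul_of_nonneg_right hsw h1θ.le).trans hwσ
    have e3 : (1 - θ ^ 2) * ((σ ^ 2 * (1 - θ ^ 2) * (4 * θ ^ 2)) * (1 / u)) =
        (u * (1 - θ ^ 2) * (1 - θ ^ 2)) * (σ ^ 2 * (2 * θ / u) ^ 2) := by
      have hu0 : u ≠ 0 := by linarith
      field_simp
      ring
    rw [e3, mul_pow]
    have e4 : 0 ≤ u * (1 - θ ^ 2) * (1 - θ ^ 2) := by positivity
    calc (u * (1 - θ ^ 2) * (1 - θ ^ 2)) * (σ ^ 2 * (2 * θ / u) ^ 2) ≤
        (u * (1 - θ ^ 2) * (1 - θ ^ 2)) * (σ ^ 2 * L ^ 2) := by gcongr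
      _ ≤ w ^ σ * (σ ^ 2 * L ^ 2) := by gcongr
  have e5 : (1 - θ ^ 2) * (√w * (2 - 2 * Real.cos (t * L)) +
      (σ ^ 2 * (1 - θ ^ 2) * (4 * θ ^ 2)) * (1 / u)) =
      (1 - θ ^ 2) * (√w * (2 - 2 * Real.cos (t * L))) +
      (1 - θ ^ 2) * ((σ ^ 2 * (1 - θ ^ 2) * (4 * θ ^ 2)) * (1 / u)) := by ring
  rw [e5]
  linarith

theorem kk_le (x : ℝ) : kk x ≤ x ^ 2 * Real.log 2 := by
  unfold kk
  have h1 : ∫ u in (1:ℝ)..2, u * (2 - 2 * Real.cos (x / u)) ≤ ∫ u in (1:ℝ)..2, x ^ 2 * (1 / u) := by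
    refine intervalIntegral.integral_mono_on (by norm_num) ?_ ?_ ?_
    · refine ContinuousOn.intervalIntegrable ?_
      rw [uIcc_of_le (by norm_num : (1:ℝ) ≤ 2)]
      have : ContinuousOn (fun u : ℝ => x / u) (Icc 1 2) :=
        continuousOn_const.div continuousOn_id (fun u hu => (lt_of_lt_of_le one_pos hu.1).ne')
      fun_prop
    · refine ContinuousOn.intervalIntegrable ?_
      rw [uIcc_of_le (by norm_num : (1:ℝ) ≤ 2)]
      refine continuousOn_const.mul (continuousOn_const.div continuousOn_id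
        (fun u hu => (lt_of_lt_of_le one_pos hu.1).ne'))
    · intro u hu
      have hu0 : 0 < u := by linarith [hu.1]
      have h2 := Real.one_sub_sq_div_two_le_cos (x := x / u)
      have h3 : u * (2 - 2 * Real.cos (x / u)) ≤ u * (x / u) ^ 2 := by
        refine mul_le_mul_of_nonneg_left ?_ hu0.le
        linarith
      refine h3.trans (le_of_eq ?_)
      field_simp
  refine h1.trans ?_
  rw [intervalIntegral.integral_const_mul, integral_one_div_of_pos one_pos two_pos]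
  simp

theorem ph_cont (P : Polynomial ℝ) : Continuous (ph P) := by
  unfold ph
  have h := P.continuous
  fun_prop

theorem ph_le (P : Polynomial ℝ) (h : ∀ x : ℝ, x ^ 2 * ph P x ≤ kk x) (x : ℝ) :
    ph P x ≤ Real.log 2 := by
  have h1 : ∀ x : ℝ, x ≠ 0 → ph P x ≤ Real.log 2 := by
    intro x hx
    have h2 := (h x).trans (kk_le x)
    have h3 : 0 < x ^ 2 := by positivity
    exact le_of_mul_le_mul_left h2 h3
  by_cases hx : x = 0
  · subst hx
    have h4 : Tendsto (ph P) (𝓝[≠] 0) (𝓝 (ph P 0)) :=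
      ((ph_cont P).tendsto 0).mono_left nhdsWithin_le_nhds
    refine le_of_tendsto h4 ?_
    filter_upwards [self_mem_nhdsWithin] with y hy
    exact h1 y hy
  · exact h1 x hx

theorem ph_nonneg (P : Polynomial ℝ) (hP : ∀ y ∈ Icc (0:ℝ) 1, 0 ≤ P.eval y) (x : ℝ) :
    0 ≤ ph P x := by
  unfold ph
  refine mul_nonneg (hP _ ⟨(Real.exp_pos _).le, ?_⟩) (Real.exp_pos _).le
  rw [Real.exp_le_one_iff]
  nlinarith [sq_nonneg x]

theorem s_KS : S_KS := by
  intro h1 h2 h3 h4 P hP hP2 κ hκ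
  have hκ2 : 0 < κ / 2 := by linarith
  have hT1 : ∀ᶠ T : ℝ in atTop, 1 / κ ≤ T := eventually_ge_atTop _
  have hT2 : ∀ᶠ T : ℝ in atTop, 1 ≤ T := eventually_ge_atTop _
  filter_upwards [h4 h1 h2 h3 P hP hP2 (κ / 2) hκ2, hT1, hT2] with T hT hTκ hT1
  intro δ hδ hδ1 t
  have hT0 : 0 < T := by linarith
  set θ := 1 / (2 * T) with hθ
  have hθp : 0 < θ := by positivity
  have hθ1 : θ ≤ 1 / 2 := by
    rw [hθ, div_le_div_iff₀ (by positivity) (by norm_num)]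
    linarith
  have hθ2 : θ ^ 2 ≤ κ / 2 := by
    have e1 : θ ≤ κ / 2 := by
      rw [hθ, div_le_div_iff₀ (by positivity) (by norm_num)]
      rw [div_le_iff₀ hκ] at hTκ
      nlinarith
    nlinarith
  have hθ4 : 0 < 1 - θ ^ 2 := by nlinarith
  -- integrate the pointwise bound
  have hcl : ContinuousOn (fun u : ℝ => Real.log ((u + θ) / (u - θ))) (Icc 1 2) := by
    refine ContinuousOn.log ?_ ?_
    · refine ContinuousOn.div (by fun_prop) (by fun_prop) ?_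
      intro u hu
      have := hu.1
      have : 0 < u - θ := by linarith
      exact this.ne'
    · intro u hu
      have := hu.1
      have h5 : 0 < u - θ := by linarith
      have h6 : 0 < u + θ := by linarith
      positivity
  have hI1 : IntervalIntegrable (fun u : ℝ => √((u - θ) * (u + θ)) *
      (2 - 2 * Real.cos (t * Real.log ((u + θ) / (u - θ))))) volume 1 2 := by
    refine ContinuousOn.intervalIntegrable ?_
    rw [uIcc_of_le (by norm_num : (1:ℝ) ≤ 2)]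
    fun_prop
  have hI2 : IntervalIntegrable (fun u : ℝ => ((1 / 2 + δ) ^ 2 * (1 - θ ^ 2) * (4 * θ ^ 2)) *
      (1 / u)) volume 1 2 := by
    refine ContinuousOn.intervalIntegrable ?_
    rw [uIcc_of_le (by norm_num : (1:ℝ) ≤ 2)]
    refine continuousOn_const.mul (continuousOn_const.div continuousOn_id
      (fun u hu => (lt_of_lt_of_le one_pos hu.1).ne'))
  have hI3 : IntervalIntegrable (fun u : ℝ => ‖((u + θ : ℝ) : ℂ) ^ (ln δ t) -
      ((u - θ : ℝ) : ℂ) ^ (ln δ t)‖ ^ 2) volume 1 2 := by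
    refine ContinuousOn.intervalIntegrable ?_
    rw [uIcc_of_le (by norm_num : (1:ℝ) ≤ 2)]
    have e1 : ∀ u ∈ Icc (1:ℝ) 2, ‖((u + θ : ℝ) : ℂ) ^ (ln δ t) -
        ((u - θ : ℝ) : ℂ) ^ (ln δ t)‖ ^ 2 =
        ((u + θ) ^ (1 / 2 + δ) - (u - θ) ^ (1 / 2 + δ)) ^ 2 +
        ((u - θ) * (u + θ)) ^ (1 / 2 + δ) *
          (2 - 2 * Real.cos (t * Real.log ((u + θ) / (u - θ)))) := by
      intro u hu
      have := hu.1
      exact norm_sq_eq _ _ δ t (by linarith) (by linarith)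
    refine ContinuousOn.congr ?_ e1
    have c1 : ContinuousOn (fun u : ℝ => (u + θ) ^ (1 / 2 + δ)) (Icc 1 2) :=
      ContinuousOn.rpow_const (by fun_prop) (fun u _ => Or.inr (by linarith))
    have c2 : ContinuousOn (fun u : ℝ => (u - θ) ^ (1 / 2 + δ)) (Icc 1 2) :=
      ContinuousOn.rpow_const (by fun_prop) (fun u _ => Or.inr (by linarith))
    have c3 : ContinuousOn (fun u : ℝ => ((u - θ) * (u + θ)) ^ (1 / 2 + δ)) (Icc 1 2) :=
      ContinuousOn.rpow_const (by fun_prop) (fun u _ => Or.inr (by linarith))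
    fun_prop
  have hmono : ∫ u in (1:ℝ)..2, (1 - θ ^ 2) * (√((u - θ) * (u + θ)) *
        (2 - 2 * Real.cos (t * Real.log ((u + θ) / (u - θ)))) +
        ((1 / 2 + δ) ^ 2 * (1 - θ ^ 2) * (4 * θ ^ 2)) * (1 / u)) ≤
      ∫ u in (1:ℝ)..2, ‖((u + θ : ℝ) : ℂ) ^ (ln δ t) - ((u - θ : ℝ) : ℂ) ^ (ln δ t)‖ ^ 2 := by
    refine intervalIntegral.integral_mono_on (by norm_num) ((hI1.add hI2).const_mul _) hI3 ?_
    intro u hu
    exact ptw u θ δ t hu.1 hθp hθ1 hδ hδ1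
  rw [intervalIntegral.integral_const_mul, intervalIntegral.integral_add hI1 hI2,
    intervalIntegral.integral_const_mul, integral_one_div_of_pos one_pos two_pos, div_one] at hmono
  have hK : KT T t = T * ∫ u in (1:ℝ)..2, √((u - θ) * (u + θ)) *
      (2 - 2 * Real.cos (t * Real.log ((u + θ) / (u - θ)))) := rfl
  have h5 := mul_le_mul_of_nonneg_left hmono hT0.le
  refine le_trans ?_ h5
  have hTθ : T * (4 * θ ^ 2) = 1 / T := by rw [hθ]; field_simp; ring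
  have h6 : T * ((1 - θ ^ 2) * ((∫ u in (1:ℝ)..2, √((u - θ) * (u + θ)) *
      (2 - 2 * Real.cos (t * Real.log ((u + θ) / (u - θ))))) +
      (1 / 2 + δ) ^ 2 * (1 - θ ^ 2) * (4 * θ ^ 2) * Real.log 2)) =
      (1 - θ ^ 2) * KT T t + (1 - θ ^ 2) ^ 2 * ((1 / 2 + δ) ^ 2 / T * Real.log 2) := by
    rw [hK]
    have e1 : (1 - θ ^ 2) ^ 2 * ((1 / 2 + δ) ^ 2 / T * Real.log 2) =
      (1 - θ ^ 2) ^ 2 * ((1 / 2 + δ) ^ 2 * (1 / T) * Real.log 2) := by ring
    rw [e1, ← hTθ]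
    ring
  rw [h6]
  have hn : ‖ln δ t‖ ^ 2 = (1 / 2 + δ) ^ 2 + t ^ 2 := by
    rw [← Complex.normSq_eq_norm_sq, Complex.normSq_apply]
    simp [ln]
    ring
  rw [hn]
  have hp0 := ph_nonneg P hP (t / T)
  have hp1 := ph_le P hP2 (t / T)
  have h7 := hT t
  have h8 : (1 - θ ^ 2) * ((1 - κ / 2) * (t ^ 2 / T) * ph P (t / T)) ≤ (1 - θ ^ 2) * KT T t :=
    mul_le_mul_of_nonneg_left h7 hθ4.le
  have hq : 0 ≤ t ^ 2 / T * ph P (t / T) := mul_nonneg (by positivity) hp0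
  have h9 : (1 - κ) * (t ^ 2 / T * ph P (t / T)) ≤
      (1 - θ ^ 2) * (1 - κ / 2) * (t ^ 2 / T * ph P (t / T)) := by
    refine mul_le_mul_of_nonneg_right ?_ hq
    nlinarith [sq_nonneg θ]
  have hr : 0 ≤ (1 / 2 + δ) ^ 2 / T := by positivity
  have h10 : (1 - κ) * ((1 / 2 + δ) ^ 2 / T * ph P (t / T)) ≤
      (1 - θ ^ 2) ^ 2 * ((1 / 2 + δ) ^ 2 / T * Real.log 2) := by
    have e1 : (1 - κ) * ((1 / 2 + δ) ^ 2 / T * ph P (t / T)) ≤
        (1 - θ ^ 2) ^ 2 * ((1 / 2 + δ) ^ 2 / T * ph P (t / T)) := by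
      refine mul_le_mul_of_nonneg_right ?_ (mul_nonneg hr hp0)
      nlinarith [sq_nonneg (θ ^ 2)]
    refine e1.trans ?_
    have e2 : (1 / 2 + δ) ^ 2 / T * ph P (t / T) ≤ (1 / 2 + δ) ^ 2 / T * Real.log 2 :=
      mul_le_mul_of_nonneg_left hp1 hr
    exact mul_le_mul_of_nonneg_left e2 (sq_nonneg _)
  have h11 : (1 - κ) * (((1 / 2 + δ) ^ 2 + t ^ 2) / T) * ph P (t / T) =
      (1 - κ) * (t ^ 2 / T * ph P (t / T)) + (1 - κ) * ((1 / 2 + δ) ^ 2 / T * ph P (t / T)) := by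
    ring
  rw [h11]
  have h12 : (1 - θ ^ 2) * (1 - κ / 2) * (t ^ 2 / T * ph P (t / T)) =
      (1 - θ ^ 2) * ((1 - κ / 2) * (t ^ 2 / T) * ph P (t / T)) := by ring
  linarith

end Pool.Agent.H484.HBK
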